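import Pool.Agent.H239R2.Cover.Orient

/-!
# The conjecture of Barát, Gerbner and Thomassé for all stars

Let `T` be a star with `m` edges: a tree all of whose edges contain one vertex.  Every finite simple graph `G` whose
number of edges is divisible by `m` and which contains `m` pairwise edge-disjoint spanning trees has a decomposition
into copies of `T`.

The proof uses the theorem of the library of helper239 (`Pool.Agent.H239R2.Cover.orientation_of_packing`): a multigraph
with `m` pairwise disjoint connected spanning edge sets has orientations with all out-degree sequences modulo `m` with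
the right sum.  With all out-degrees divisible by `m` the out-edges at every vertex are divided into stars.
-/

set_option autoImplicit false
set_option linter.unusedSectionVars false

namespace Pool.Agent.Results.MP_1c8ed6_co.StarsFromTreeConnectivity

open Finset Pool.Agent.H239R2.Cover

/-- A finite set whose size is divisible by `m` is a disjoint union of sets of size `m`. -/
theorem split {V : Type} [DecidableEq V] (N : Finset V) {m : ℕ} (h : m ∣ N.card) :
    ∃ (k : ℕ) (P : Fin k → Finset V), (∀ i, (P i).card = m) ∧ (∀ i, P i ⊆ N) ∧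
      (∀ i j x, x ∈ P i → x ∈ P j → i = j) ∧ ∀ x ∈ N, ∃ i, x ∈ P i := by
  obtain ⟨k, hk⟩ := h
  have e0 : N.card = k * m := by rw [hk, mul_comm]
  let e : N ≃ Fin k × Fin m := (N.equivFinOfCardEq e0).trans finProdFinEquiv.symm
  refine ⟨k, fun i => (univ : Finset (Fin m)).image (fun j => ((e.symm (i, j)) : V)),
    fun i => ?_, fun i x hx => ?_, fun i j x hi hj => ?_, fun x hx => ?_⟩
  · rw [Finset.card_image_of_injective, Finset.card_univ, Fintype.card_fin]
    intro a b hab
    have := e.symm.injective (Subtype.ext hab)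
    exact congrArg Prod.snd this
  · obtain ⟨j, _, rfl⟩ := Finset.mem_image.1 hx
    exact (e.symm (i, j)).2
  · obtain ⟨a, _, ha⟩ := Finset.mem_image.1 hi
    obtain ⟨b, _, hb⟩ := Finset.mem_image.1 hj
    have := e.symm.injective (Subtype.ext (ha.trans hb.symm))
    exact congrArg Prod.fst this
  · refine ⟨(e ⟨x, hx⟩).1, Finset.mem_image.2 ⟨(e ⟨x, hx⟩).2, mem_univ _, ?_⟩⟩
    show ((e.symm (e ⟨x, hx⟩) : N) : V) = x
    rw [Equiv.symm_apply_apply]

/-- The star with centre `v` and leaves `B`, as a subgraph of `G`. -/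
def star {V : Type} (G : SimpleGraph V) (v : V) (B : Set V) (hB : ∀ b ∈ B, G.Adj v b) :
    G.Subgraph where
  verts := insert v B
  Adj a b := (a = v ∧ b ∈ B) ∨ (b = v ∧ a ∈ B)
  adj_sub := by
    rintro a b (⟨rfl, h⟩ | ⟨rfl, h⟩)
    · exact hB b h
    · exact (hB a h).symm
  edge_vert := by
    rintro a b (⟨rfl, h⟩ | ⟨rfl, h⟩)
    · exact Set.mem_insert _ _
    · exact Set.mem_insert_of_mem _ h
  symm := ⟨by
    rintro a b (h | h)
    · exact Or.inr h
    · exact Or.inl h⟩

theorem adj_centre {W : Type} {T : SimpleGraph W} (hT : T.Connected) {c : W}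
    (hc : ∀ u w, T.Adj u w → u = c ∨ w = c) {w : W} (hw : w ≠ c) : T.Adj c w := by
  obtain ⟨p⟩ := hT.preconnected w c
  cases p with
  | nil => exact absurd rfl hw
  | cons h q =>
    rcases hc _ _ h with h1 | h1
    · exact absurd h1 hw
    · rw [h1] at h
      exact h.symm

theorem star_iso {V W : Type} [Fintype W] [DecidableEq W] [DecidableEq V] {T : SimpleGraph W}
    [DecidableRel T.Adj] (hT : T.IsTree) {c : W} (hc : ∀ u w, T.Adj u w → u = c ∨ w = c)
    {G : SimpleGraph V} {v : V} {B : Finset V} (hB : ∀ b ∈ (B : Set V), G.Adj v b)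
    (hm : B.card = T.edgeFinset.card) : Nonempty (T ≃g (star G v (B : Set V) hB).coe) := by
  classical
  have hv : v ∉ B := fun h => G.irrefl (hB v (Finset.mem_coe.2 h))
  have hW : Fintype.card W = B.card + 1 := by
    rw [hm]
    exact hT.card_edgeFinset.symm
  have e1 : W ≃ Fin (B.card + 1) := Fintype.equivFinOfCardEq hW
  have e2 : {x // x ∈ insert v B} ≃ Fin (B.card + 1) :=
    Finset.equivFinOfCardEq (Finset.card_insert_of_notMem hv)
  have e3 : {x // x ∈ insert v B} ≃ {x // x ∈ (star G v (B : Set V) hB).verts} :=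
    Equiv.subtypeEquivRight fun x => by
      show x ∈ insert v B ↔ x ∈ insert v (B : Set V)
      rw [Finset.mem_insert, Set.mem_insert_iff, Finset.mem_coe]
  let φ : W ≃ {x // x ∈ (star G v (B : Set V) hB).verts} := e1.trans (e2.symm.trans e3)
  have hvm : v ∈ (star G v (B : Set V) hB).verts := Set.mem_insert v _
  let ψ : W ≃ {x // x ∈ (star G v (B : Set V) hB).verts} :=
    φ.trans (Equiv.swap (φ c) ⟨v, hvm⟩)
  have hψc : ψ c = ⟨v, hvm⟩ := by
    show Equiv.swap (φ c) ⟨v, hvm⟩ (φ c) = ⟨v, hvm⟩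
    exact Equiv.swap_apply_left _ _
  have h1 : ∀ a : W, ((ψ a : V) = v ↔ a = c) := by
    intro a
    constructor
    · intro h
      exact ψ.injective ((Subtype.ext h).trans hψc.symm)
    · rintro rfl
      rw [hψc]
  have h2 : ∀ a : W, ((ψ a : V) ∈ B ↔ a ≠ c) := by
    intro a
    constructor
    · rintro h rfl
      rw [hψc] at h
      exact hv h
    · intro h
      have h3 : (ψ a : V) ∈ insert v (B : Set V) := (ψ a).2
      rcases h3 with h3 | h3
      · exact absurd ((h1 a).1 h3) h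
      · exact Finset.mem_coe.1 h3
  refine ⟨⟨ψ, ?_⟩⟩
  intro a b
  show (((ψ a : V) = v ∧ (ψ b : V) ∈ (B : Set V)) ∨ ((ψ b : V) = v ∧ (ψ a : V) ∈ (B : Set V))) ↔
    T.Adj a b
  rw [Finset.mem_coe, Finset.mem_coe, h1, h1, h2, h2]
  constructor
  · rintro (⟨rfl, h⟩ | ⟨rfl, h⟩)
    · exact adj_centre hT.connected hc h
    · exact (adj_centre hT.connected hc h).symm
  · intro h
    rcases hc _ _ h with rfl | rfl
    · exact Or.inl ⟨rfl, fun h' => h.ne h'.symm⟩
    · exact Or.inr ⟨rfl, fun h' => h.ne h'⟩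

section
variable {V : Type} [Fintype V] [DecidableEq V] (G : SimpleGraph V) [DecidableRel G.Adj]

/-- one end of an edge -/
noncomputable def src (e : {e : Sym2 V // e ∈ G.edgeFinset}) : V := (Quot.out e.1).1

/-- the other end -/
noncomputable def dst (e : {e : Sym2 V // e ∈ G.edgeFinset}) : V := (Quot.out e.1).2

theorem mk_src_dst (e : {e : Sym2 V // e ∈ G.edgeFinset}) : s(src G e, dst G e) = e.1 :=
  Quot.out_eq e.1

/-- the head of an edge -/
noncomputable def head (o : {e : Sym2 V // e ∈ G.edgeFinset} → Bool)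
    (e : {e : Sym2 V // e ∈ G.edgeFinset}) : V := if o e then dst G e else src G e

theorem mk_tail_head (o : {e : Sym2 V // e ∈ G.edgeFinset} → Bool)
    (e : {e : Sym2 V // e ∈ G.edgeFinset}) : s(tail (src G) (dst G) o e, head G o e) = e.1 := by
  unfold tail head
  split_ifs
  · exact mk_src_dst G e
  · rw [Sym2.eq_swap]
    exact mk_src_dst G e

theorem leaves_iff (X : Finset V) (e : {e : Sym2 V // e ∈ G.edgeFinset}) {a b : V}
    (h : e.1 = s(a, b)) (ha : a ∈ X) (hb : b ∉ X) : Leaves (src G) (dst G) X e := by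
  unfold Leaves
  rw [← mk_src_dst G e, Sym2.eq_iff] at h
  rcases h with ⟨h1, h2⟩ | ⟨h1, h2⟩
  · rw [h1, h2]
    tauto
  · rw [h1, h2]
    tauto

/-- **From the orientation to the stars.** -/
theorem stars_of_orientation {W : Type} [Fintype W] [DecidableEq W] (T : SimpleGraph W)
    [DecidableRel T.Adj] (hT : T.IsTree) {c : W} (hc : ∀ u w, T.Adj u w → u = c ∨ w = c)
    (o : {e : Sym2 V // e ∈ G.edgeFinset} → Bool)
    (ho : ∀ v, T.edgeFinset.card ∣ outdeg (src G) (dst G) o v) :
    ∃ (n : ℕ) (H : Fin n → G.Subgraph),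
      (∀ i, Nonempty (T ≃g (H i).coe)) ∧
      Pairwise (fun i j => Disjoint (H i).edgeSet (H j).edgeSet) ∧
      (∀ e ∈ G.edgeSet, ∃ i, e ∈ (H i).edgeSet) := by
  classical
  let N : V → Finset V := fun v =>
    (univ.filter (fun e => tail (src G) (dst G) o e = v)).image (head G o)
  have hN : ∀ v, (N v).card = outdeg (src G) (dst G) o v := by
    intro v
    unfold outdeg
    refine Finset.card_image_of_injOn fun e he e' he' h => ?_
    have h1 := mk_tail_head G o e
    have h2 := mk_tail_head G o e'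
    have h3 : tail (src G) (dst G) o e = v := (Finset.mem_filter.1 (Finset.mem_coe.1 he)).2
    have h4 : tail (src G) (dst G) o e' = v := (Finset.mem_filter.1 (Finset.mem_coe.1 he')).2
    have h5 : head G o e = head G o e' := h
    apply Subtype.ext
    rw [← h1, ← h2, h3, h4, h5]
  have hmem : ∀ v w, w ∈ N v → ∃ e, tail (src G) (dst G) o e = v ∧ e.1 = s(v, w) := by
    intro v w hw
    obtain ⟨e, he, rfl⟩ := Finset.mem_image.1 hw
    have h3 : tail (src G) (dst G) o e = v := (Finset.mem_filter.1 he).2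
    refine ⟨e, h3, ?_⟩
    rw [← mk_tail_head G o e, h3]
  have hadj : ∀ v w, w ∈ N v → G.Adj v w := by
    intro v w hw
    obtain ⟨e, _, he⟩ := hmem v w hw
    have h1 := e.2
    rw [he, SimpleGraph.mem_edgeFinset, SimpleGraph.mem_edgeSet] at h1
    exact h1
  have hanti : ∀ v w, w ∈ N v → v ∉ N w := by
    intro v w hw hv
    obtain ⟨e, h1, h2⟩ := hmem v w hw
    obtain ⟨e', h3, h4⟩ := hmem w v hv
    have h5 : e = e' := by
      apply Subtype.ext
      rw [h2, h4, Sym2.eq_swap]
    rw [h5, h3] at h1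
    exact (hadj v w hw).ne h1.symm
  have hcov : ∀ a b, G.Adj a b → b ∈ N a ∨ a ∈ N b := by
    intro a b hab
    have he : s(a, b) ∈ G.edgeFinset := by
      rw [SimpleGraph.mem_edgeFinset, SimpleGraph.mem_edgeSet]
      exact hab
    have h1 := mk_tail_head G o ⟨s(a, b), he⟩
    rw [Sym2.eq_iff] at h1
    rcases h1 with ⟨h1, h2⟩ | ⟨h1, h2⟩
    · left
      exact Finset.mem_image.2 ⟨⟨s(a, b), he⟩, Finset.mem_filter.2 ⟨mem_univ _, h1⟩, h2⟩
    · right
      exact Finset.mem_image.2 ⟨⟨s(a, b), he⟩, Finset.mem_filter.2 ⟨mem_univ _, h1⟩, h2⟩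
  have hsp : ∀ v, ∃ (k : ℕ) (P : Fin k → Finset V), (∀ i, (P i).card = T.edgeFinset.card) ∧
      (∀ i, P i ⊆ N v) ∧ (∀ i j x, x ∈ P i → x ∈ P j → i = j) ∧ ∀ x ∈ N v, ∃ i, x ∈ P i :=
    fun v => split (N v) (by rw [hN v]; exact ho v)
  choose k P hP1 hP2 hP3 hP4 using hsp
  let ε := (Fintype.equivFin (Σ v, Fin (k v))).symm
  have hst : ∀ (x : Σ v, Fin (k v)), ∀ b ∈ ((P x.1 x.2 : Finset V) : Set V), G.Adj x.1 b :=
    fun x b hb => hadj _ _ (hP2 x.1 x.2 (Finset.mem_coe.1 hb))
  refine ⟨Fintype.card (Σ v, Fin (k v)), fun i => star G (ε i).1 _ (hst (ε i)), fun i => ?_,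
    fun i j hij => ?_, fun e he => ?_⟩
  · exact star_iso hT hc (hst (ε i)) (hP1 _ _)
  · show Disjoint (star G (ε i).1 _ (hst (ε i))).edgeSet (star G (ε j).1 _ (hst (ε j))).edgeSet
    rw [Set.disjoint_left]
    intro e
    induction e using Sym2.ind with
    | _ a b =>
      intro h1 h2
      rw [SimpleGraph.Subgraph.mem_edgeSet] at h1 h2
      have key : ∀ v w (p : Fin (k v)) v' w' (q : Fin (k v')), w ∈ P v p → w' ∈ P v' q →
          (v = v' ∧ w = w') ∨ (v = w' ∧ w = v') → (⟨v, p⟩ : Σ v, Fin (k v)) = ⟨v', q⟩ := by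
        rintro v w p v' w' q h3 h4 (⟨rfl, rfl⟩ | ⟨rfl, rfl⟩)
        · rw [hP3 v p q w h3 h4]
        · exact absurd (hP2 _ _ h4) (hanti _ _ (hP2 _ _ h3))
      have hne : ε i ≠ ε j := fun h => hij (ε.injective h)
      apply hne
      rcases h1 with ⟨h1, h1'⟩ | ⟨h1, h1'⟩ <;> rcases h2 with ⟨h2, h2'⟩ | ⟨h2, h2'⟩
      · exact key _ b _ _ b _ (Finset.mem_coe.1 h1') (Finset.mem_coe.1 h2')
          (Or.inl ⟨h1.symm.trans h2, rfl⟩)
      · exact key _ b _ _ a _ (Finset.mem_coe.1 h1') (Finset.mem_coe.1 h2')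
          (Or.inr ⟨h1.symm, h2⟩)
      · exact key _ a _ _ b _ (Finset.mem_coe.1 h1') (Finset.mem_coe.1 h2')
          (Or.inr ⟨h1.symm, h2⟩)
      · exact key _ a _ _ a _ (Finset.mem_coe.1 h1') (Finset.mem_coe.1 h2')
          (Or.inl ⟨h1.symm.trans h2, rfl⟩)
  · induction e using Sym2.ind with
    | _ a b =>
      rw [SimpleGraph.mem_edgeSet] at he
      rcases hcov a b he with h | h
      · obtain ⟨i, hi⟩ := hP4 a b h
        refine ⟨ε.symm ⟨a, i⟩, ?_⟩
        rw [SimpleGraph.Subgraph.mem_edgeSet]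
        show (a = (ε (ε.symm ⟨a, i⟩)).1 ∧
            b ∈ ((P (ε (ε.symm ⟨a, i⟩)).1 (ε (ε.symm ⟨a, i⟩)).2 : Finset V) : Set V)) ∨ _
        left
        rw [Equiv.apply_symm_apply]
        exact ⟨rfl, Finset.mem_coe.2 hi⟩
      · obtain ⟨i, hi⟩ := hP4 b a h
        refine ⟨ε.symm ⟨b, i⟩, ?_⟩
        rw [SimpleGraph.Subgraph.mem_edgeSet]
        show _ ∨ (b = (ε (ε.symm ⟨b, i⟩)).1 ∧
            a ∈ ((P (ε (ε.symm ⟨b, i⟩)).1 (ε (ε.symm ⟨b, i⟩)).2 : Finset V) : Set V))
        right
        rw [Equiv.apply_symm_apply]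
        exact ⟨rfl, Finset.mem_coe.2 hi⟩

end

/-- **The conjecture of Barát, Gerbner and Thomassé for stars.**  `T` is a tree all of whose edges contain the vertex
`c`, that is a star `K_{1,m}`, `m = |E(T)|` arbitrary, and `G` is a finite simple graph with `m ∣ |E(G)|`.  If `G`
contains `m` pairwise edge-disjoint spanning trees, then the edges of `G` split into edge-disjoint subgraphs isomorphic
to `T`.  (The form is that of the frozen statement `S07473`, with the hypothesis that `T` is a star.) -/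
theorem result {V : Type} [Fintype V] [DecidableEq V] (G : SimpleGraph V) [DecidableRel G.Adj]
    {W : Type} [Fintype W] [DecidableEq W] (T : SimpleGraph W) [DecidableRel T.Adj]
    (hT : T.IsTree) (c : W) (hc : ∀ u w, T.Adj u w → u = c ∨ w = c)
    (hG : ∃ F : Fin T.edgeFinset.card → SimpleGraph V,
          (∀ i, F i ≤ G ∧ (F i).IsTree) ∧
          Pairwise (fun i j => Disjoint (F i) (F j)))
    (hdvd : T.edgeFinset.card ∣ G.edgeFinset.card) :
    ∃ (n : ℕ) (H : Fin n → G.Subgraph),
      (∀ i, Nonempty (T ≃g (H i).coe)) ∧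
      Pairwise (fun i j => Disjoint (H i).edgeSet (H j).edgeSet) ∧
      (∀ e ∈ G.edgeSet, ∃ i, e ∈ (H i).edgeSet) := by
  classical
  rcases Nat.eq_zero_or_pos T.edgeFinset.card with h0 | hpos
  · rw [h0, zero_dvd_iff, Finset.card_eq_zero] at hdvd
    refine ⟨0, fun i => i.elim0, fun i => i.elim0, fun i => i.elim0, fun e he => ?_⟩
    rw [← SimpleGraph.mem_edgeFinset, hdvd] at he
    exact absurd he (Finset.notMem_empty _)
  have hsum : ∑ _v : V, (0 : ZMod T.edgeFinset.card) =
      (Fintype.card {e : Sym2 V // e ∈ G.edgeFinset} : ZMod T.edgeFinset.card) := by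
    rw [Finset.sum_const_zero, Fintype.card_coe]
    exact ((ZMod.natCast_eq_zero_iff _ _).2 hdvd).symm
  obtain ⟨F, hF, hdis⟩ := hG
  obtain ⟨o, ho⟩ := orientation_of_packing (src G) (dst G) T.edgeFinset.card hpos
    (fun j => univ.filter fun e => e.1 ∈ (F j).edgeSet) (fun i j hij => by
      rw [Finset.disjoint_left]
      intro e h1 h2
      have h3 := (Finset.mem_filter.1 h1).2
      have h4 := (Finset.mem_filter.1 h2).2
      exact Set.disjoint_left.1 (SimpleGraph.disjoint_edgeSet.2 (hdis hij)) h3 h4)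
    (fun j => by
      intro X hX hX'
      obtain ⟨a, ha⟩ := hX
      obtain ⟨b, hb⟩ : ∃ b, b ∉ X := by
        by_contra h
        push Not at h
        exact hX' (Finset.eq_univ_of_forall h)
      obtain ⟨p⟩ := (hF j).2.connected.preconnected a b
      obtain ⟨d, -, hd1, hd2⟩ := p.exists_boundary_dart (X : Set V) (Finset.mem_coe.2 ha)
        (fun h => hb (Finset.mem_coe.1 h))
      have h1 : s(d.fst, d.snd) ∈ (F j).edgeSet := d.adj
      have h2 : s(d.fst, d.snd) ∈ G.edgeFinset := by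
        rw [SimpleGraph.mem_edgeFinset]
        exact (hF j).1 d.adj
      refine ⟨⟨s(d.fst, d.snd), h2⟩, Finset.mem_filter.2 ⟨mem_univ _, h1⟩, ?_⟩
      exact leaves_iff G X _ rfl (Finset.mem_coe.1 hd1) (fun h => hd2 (Finset.mem_coe.2 h)))
    (fun _ => 0) hsum
  refine stars_of_orientation G T hT hc o fun v => ?_
  exact (ZMod.natCast_eq_zero_iff _ _).1 (ho v)

end Pool.Agent.Results.MP_1c8ed6_co.StarsFromTreeConnectivity
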